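import Mathlib
import Pool.Agent.Q281.Sol.Proj

set_option autoImplicit false

/-!
# Moduli heights and minimal heights in orbits

Let `X` be a quasi-projective variety over the algebraic numbers with an action of a group `G`, and
let `π : X → Y` be a geometric quotient. Then `h_Y (π x) ≍ inf_g h_X (g x)` for all ample heights
`h_X` and `h_Y`.

Of the properties of a geometric quotient only the following are used: `π` is a surjective
morphism and its fibres are the orbits of `G` (on points over the algebraic numbers).

The proof of the upper bound: a system of polynomial equations and inequations with parameters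
which is solvable for the parameters `y` has a solution whose height is bounded by a linear
function of the height of `y` (`Pool.Agent.Q281.Sol.bounded_sol`, by Noetherian induction on the
space of the parameters: a point over the algebraic closure of the function field of a closed set of
parameters specialises to a solution whose coordinates are roots of nonzero polynomials with
coefficients polynomial in `y`).
-/

namespace Pool.Agent.Results.MP_216eb3_nt.OrbitHeights

open Pool.Agent.Q281.Sol

/-- **The height of a point of a geometric quotient is comparable with the minimal height in the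
orbit.** `X` and `Y` are quasi-projective varieties over the algebraic numbers (embedded in
projective spaces such that the given ample heights `hX` and `hY` are, up to positive multiples and
bounded functions, the standard heights), `G` acts on `X`, and `π` is a surjective morphism whose
fibres are the orbits of `G`. -/
theorem result {n m : ℕ} {X : Set (PSpace n)} {Y : Set (PSpace m)}
    (qX : IsQuasiProjective X) (_qY : IsQuasiProjective Y)
    {G : Type*} [Group G] [MulAction G X]
    (π : X → Y) (hπ : IsMorphism π) (_hsurj : Function.Surjective π)
    (horb : ∀ x x' : X, π x = π x' ↔ ∃ g : G, g • x = x')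
    (hX : X → ℝ) (aX : IsAmpleHeight X hX) (hY : Y → ℝ) (aY : IsAmpleHeight Y hY) :
    Comparable (fun x : X => hY (π x)) (fun x : X => ⨅ g : G, hX (g • x)) := by
  obtain ⟨C, hC, hup, hlow⟩ := fibre_heights qX π hπ
  obtain ⟨r, c, hr, hc⟩ := aX
  obtain ⟨s, d, hs, hd⟩ := aY
  have hlb : ∀ (x : X) (g : G), r / (C * s) * hY (π x) - (r / (C * s) * d + r + c) ≤
      hX (g • x) := by
    intro x g
    have h1 : π (g • x) = π x := ((horb x (g • x)).mpr ⟨g, rfl⟩).symm
    have h2 := hup (g • x)
    rw [h1] at h2
    have h3 := (abs_le.mp (hc (g • x))).1
    have h4 := (abs_le.mp (hd (π x))).2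
    have h5 : r / (C * s) * hY (π x) ≤ r / (C * s) * (s * ht (π x : PSpace m) + d) :=
      mul_le_mul_of_nonneg_left (by linarith) (by positivity)
    have h6 : r / (C * s) * (s * ht (π x : PSpace m) + d) =
        r * (ht (π x : PSpace m) / C) + r / (C * s) * d := by
      field_simp
    have h7 : ht (π x : PSpace m) / C ≤ ht ((g • x : X) : PSpace n) + 1 := by
      rw [div_le_iff₀ hC]
      linarith
    have h8 := mul_le_mul_of_nonneg_left h7 hr.le
    linarith
  refine ⟨r / (C * s), r * C / s, r / (C * s) * d + r + c, r * C / s * d + r * C + c,
    by positivity, by positivity, fun x => ⟨?_, ?_⟩⟩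
  · exact le_ciInf (hlb x)
  · obtain ⟨x', h1, h2⟩ := hlow x
    obtain ⟨g, hg⟩ := (horb x x').mp h1.symm
    have hbdd : BddBelow (Set.range fun g : G => hX (g • x)) := by
      refine ⟨r / (C * s) * hY (π x) - (r / (C * s) * d + r + c), ?_⟩
      rintro _ ⟨g, rfl⟩
      exact hlb x g
    refine (ciInf_le hbdd g).trans ?_
    rw [hg]
    have h3 := (abs_le.mp (hc x')).2
    have h4 := (abs_le.mp (hd (π x))).1
    have h5 : ht (π x : PSpace m) ≤ (hY (π x) + d) / s := by
      rw [le_div_iff₀ hs]
      linarith
    have h6 := mul_le_mul_of_nonneg_left h2 hr.le
    have h7 := mul_le_mul_of_nonneg_left h5 (by positivity : 0 ≤ r * C)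
    have h8 : r * C * ((hY (π x) + d) / s) = r * C / s * hY (π x) + r * C / s * d := by
      field_simp
    simp only
    linarith

end Pool.Agent.Results.MP_216eb3_nt.OrbitHeights
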